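import Mathlib

/-! # Linear pairs with row sums `m ^ m`  (MP_97c21f_co) -/

namespace Pool.Agent.Results.MP_97c21f_co.LinearPairs

open Finset

/-- The function `S = S_{P,Q}` (with values in a commutative ring) on pairs of natural numbers given by `S(0,0) = 1`, `S(0,n) = 0` and
`S(m,0) = 0` for `m, n ≥ 1`, and `S(m+1,n) = P(m,n) S(m,n) + Q(m,n) S(m,n-1)` for `n ≥ 1`. -/
def S {R : Type} [CommRing R] (P Q : ℕ → ℕ → R) : ℕ → ℕ → R
  | 0, 0 => 1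
  | 0, _ + 1 => 0
  | _ + 1, 0 => 0
  | m + 1, n + 1 => P m (n + 1) * S P Q m (n + 1) + Q m (n + 1) * S P Q m n

/-- The polynomial `a m + b n + c` of total degree at most one. -/
def lin (a b c : ℂ) (m n : ℕ) : ℂ := a * m + b * n + c

/-- The falling factorial `x (x-1) ... (x-k+1)`. -/
def ff (k : ℕ) (x : ℂ) : ℂ := ∏ i ∈ range k, (x - i)

theorem ff_succ (k : ℕ) (x : ℂ) : ff (k + 1) x = ff k x * (x - k) := by
  unfold ff; rw [prod_range_succ]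

theorem ff_shift (k : ℕ) (x : ℂ) : ff (k + 1) (x + 1) = (x + 1) * ff k x := by
  unfold ff
  rw [prod_range_succ', mul_comm]
  congr 1
  · simp
  · apply prod_congr rfl
    intro i _
    push_cast
    ring

theorem ff_zero (x : ℂ) : ff 0 x = 1 := by simp [ff]

theorem S_eq_zero (P Q : ℕ → ℕ → ℂ) : ∀ m n : ℕ, m < n → S P Q m n = 0
  | 0, 0, h => absurd h (lt_irrefl _)
  | 0, _ + 1, _ => rfl
  | _ + 1, 0, h => absurd h (Nat.not_lt_zero _)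
  | m + 1, n + 1, h => by
    show P m (n + 1) * S P Q m (n + 1) + Q m (n + 1) * S P Q m n = 0
    rw [S_eq_zero P Q m (n + 1) (by omega), S_eq_zero P Q m n (by omega)]
    ring

theorem sum_step (P Q : ℕ → ℕ → ℂ) (φ : ℕ → ℂ) (m : ℕ) (hm : 1 ≤ m) :
    ∑ n ∈ range (m + 2), S P Q (m + 1) n * φ n =
      ∑ n ∈ range (m + 1), S P Q m n * (P m n * φ n + Q m (n + 1) * φ (n + 1)) := by
  obtain ⟨l, rfl⟩ : ∃ l, m = l + 1 := ⟨m - 1, by omega⟩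
  have h0 : S P Q (l + 1) 0 = 0 := rfl
  have h00 : S P Q (l + 1 + 1) 0 = 0 := rfl
  have htop : S P Q (l + 1) (l + 2) = 0 := S_eq_zero P Q _ _ (by omega)
  rw [sum_range_succ', h00, zero_mul, add_zero]
  have e1 : ∀ n, S P Q (l + 1 + 1) (n + 1) * φ (n + 1) =
      P (l + 1) (n + 1) * S P Q (l + 1) (n + 1) * φ (n + 1) +
        S P Q (l + 1) n * (Q (l + 1) (n + 1) * φ (n + 1)) := by
    intro n
    show (P (l + 1) (n + 1) * S P Q (l + 1) (n + 1) + Q (l + 1) (n + 1) * S P Q (l + 1) n) *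
      φ (n + 1) = _
    ring
  rw [sum_congr rfl (fun n _ => e1 n), sum_add_distrib]
  have e2 : ∑ n ∈ range (l + 1 + 1), P (l + 1) (n + 1) * S P Q (l + 1) (n + 1) * φ (n + 1) =
      ∑ n ∈ range (l + 1 + 1), S P Q (l + 1) n * (P (l + 1) n * φ n) := by
    have e3 := sum_range_succ' (fun n => S P Q (l + 1) n * (P (l + 1) n * φ n)) (l + 1 + 1)
    have e4 := sum_range_succ (fun n => S P Q (l + 1) n * (P (l + 1) n * φ n)) (l + 1 + 1)
    simp only [h0, zero_mul, add_zero] at e3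
    rw [show l + 1 + 1 = l + 2 from rfl] at e3 e4
    rw [htop, zero_mul, add_zero] at e4
    rw [← e4, e3]
    apply sum_congr rfl
    intro n _
    ring
  rw [e2, ← sum_add_distrib]
  apply sum_congr rfl
  intro n _
  ring

/-- The factorial moments of the rows. -/
def T (a b c d e f : ℂ) (m k : ℕ) : ℂ :=
  ∑ n ∈ range (m + 1), S (lin a b c) (lin d e f) m n * ff k n

variable {a b c d e f : ℂ}

theorem T_zero (m : ℕ) (hm : 1 ≤ m) :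
    T a b c d e f (m + 1) 0 = (b + e) * T a b c d e f m 1 +
      ((a + d) * m + c + e + f) * T a b c d e f m 0 := by
  unfold T
  rw [sum_step _ _ (fun n => ff 0 n) m hm, mul_sum, mul_sum, ← sum_add_distrib]
  apply sum_congr rfl
  intro n _
  simp only [ff_zero, ff_succ, lin]
  push_cast
  ring

theorem T_succ (m k : ℕ) (hm : 1 ≤ m) :
    T a b c d e f (m + 1) (k + 1) = (b + e) * T a b c d e f m (k + 2) +
      ((a + d) * m + c + e + f + (k + 1) * (b + 2 * e)) * T a b c d e f m (k + 1) +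
      (k + 1) * (d * m + e * (k + 1) + f) * T a b c d e f m k := by
  unfold T
  rw [sum_step _ _ (fun n => ff (k + 1) n) m hm, mul_sum, mul_sum, mul_sum, ← sum_add_distrib,
    ← sum_add_distrib]
  apply sum_congr rfl
  intro n _
  have h1 : ff (k + 1) ((n + 1 : ℕ) : ℂ) = ((n : ℂ) + 1) * ff k n := by
    push_cast
    exact ff_shift k n
  simp only [lin]
  rw [h1, ff_succ (k + 1), ff_succ k]
  push_cast
  ring

theorem T_one (k : ℕ) : T a b c d e f 1 k = (e + f) * ff k 1 := by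
  unfold T
  rw [sum_range_succ, sum_range_succ, sum_range_zero]
  have h0 : S (lin a b c) (lin d e f) 1 0 = 0 := rfl
  have h1 : S (lin a b c) (lin d e f) 1 1 = e + f := by
    show lin a b c 0 1 * 0 + lin d e f 0 1 * 1 = e + f
    simp only [lin]
    push_cast
    ring
  rw [h0, h1]
  push_cast
  ring

theorem ff_one_ge (k : ℕ) : ff (k + 2) 1 = 0 := by
  unfold ff
  apply prod_eq_zero (i := 1) (by simp)
  push_cast
  ring

theorem ff_one_one : ff 1 1 = 1 := by simp [ff]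

/-- The certificate. -/
theorem cert (g h e : ℂ)
    (H4 : (-1)*g*h + (1)*g + (-1/4)*h^2 + (1)*h*e + (5/4)*h + (1/2) = 0)
    (H5 : (4)*g^2*h + (-2)*g^2 + (9/4)*g*h^2 + (-5)*g*h*e + (-77/2)*g*h + (1)*g*e + (141/4)*g + (5/16)*h^3 + (-3/2)*h^2*e + (-39/4)*h^2 + (1)*h*e^2 + (73/2)*h*e + (705/16)*h + (137/8) = 0)
    (H6 : (-18)*g^3*h + (6)*g^3 + (-61/4)*g^2*h^2 + (30)*g^2*h*e + (210)*g^2*h + (-6)*g^2*e + (-395/4)*g^2 + (-69/16)*g*h^3 + (16)*g*h^2*e + (115)*g*h^2 + (-13)*g*h*e^2 + (-1031/4)*g*h*e + (-18589/16)*g*h + (1)*g*e^2 + (201/4)*g*e + (8023/8)*g + (-13/32)*h^4 + (35/16)*h^3*e + (505/32)*h^3 + (-5/2)*h^2*e^2 + (-593/8)*h^2*e + (-9443/32)*h^2 + (1)*h*e^3 + (103/2)*h*e^2 + (17051/16)*h*e + (40115/32)*h + (3807/8) = 0)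
    (H7 : (96)*g^4*h + (-24)*g^4 + (215/2)*g^3*h^2 + (-204)*g^3*h*e + (-1249)*g^3*h + (36)*g^3*e + (791/2)*g^3 + (725/16)*g^2*h^3 + (-635/4)*g^2*h^2*e + (-16027/16)*g^2*h^2 + (136)*g^2*h*e^2 + (4135/2)*g^2*h*e + (129835/16)*g^2*h + (-14)*g^2*e^2 + (-1607/4)*g^2*e + (-58405/16)*g^2 + (545/64)*g*h^4 + (-655/16)*g*h^3*e + (-17323/64)*g*h^3 + (235/4)*g*h^2*e^2 + (16263/16)*g*h^2*e + (275385/64)*g*h^2 + (-29)*g*h*e^3 + (-3581/4)*g*h*e^2 + (-157757/16)*g*h*e + (-2167353/64)*g*h + (1)*g*e^3 + (68)*g*e^2 + (30317/16)*g*e + (897761/32)*g + (77/128)*h^5 + (-225/64)*h^4*e + (-49/2)*h^4 + (85/16)*h^3*e^2 + (8145/64)*h^3*e + (36955/64)*h^3 + (-15/4)*h^2*e^3 + (-1135/8)*h^2*e^2 + (-172587/64)*h^2*e + (-274319/32)*h^2 + (1)*h*e^4 + (277/4)*h*e^3 + (31677/16)*h*e^2 + (1947107/64)*h*e + (4488805/128)*h + (417529/32) = 0) :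
    (h + 1) ^ 2 = 0 := by
  linear_combination ((128/3)*g^4 + (-1268/9)*g^3*h + (-48)*g^3*e + (-9176/9)*g^3 + (-205/2)*g^2*h^2 + (596/9)*g^2*h*e + (-2429/18)*g^2*h + (16)*g^2*e^2 + (5192/9)*g^2*e + (-20375/9)*g^2 + (-1481/72)*g*h^3 + (47/3)*g*h^2*e + (-1189/9)*g*h^2 + (1262/9)*g*h*e^2 + (1310/3)*g*h*e + (20807/72)*g*h + (74/3)*g*e^2 + (2974/3)*g*e + (150235/36)*g + (-53/48)*h^4 + (-113/72)*h^3*e + (-10747/288)*h^3 + (139/3)*h^2*e^2 + (12449/72)*h^2*e + (-5303/36)*h^2 + (-326/9)*h*e^3 + (-1349)*h*e^2 + (-21385/8)*h*e + (645643/96)*h + (137/6)*e^2 + (57077/72)*e + (348529/24)) * H4 + ((32)*g^3 + (-16)*g^2*e + (628/9)*g^2 + (-16/9)*g*e^2 + (-958/9)*g*e + (-8743/9)*g + (7/18)*h^3 + (-2/9)*h^2*e + (1879/72)*h^2 + (104/3)*h*e^2 + (-17/9)*h*e + (-92261/72)*h + (-2/3)*e^2 + (-1417/18)*e + (-11065/6)) * H5 + ((8/3)*g*e + (494/9)*g + (-2/3)*h^2 + (8/3)*h*e + (625/9)*h + (2)*e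 + (263/3)) * H6 + ((-8/9)*g + (-10/9)*h + (-4/3)) * H7

theorem fin (g h e : ℂ)
    (H4 : (-1)*g*h + (1)*g + (-1/4)*h^2 + (1)*h*e + (5/4)*h + (1/2) = 0)
    (H5 : (4)*g^2*h + (-2)*g^2 + (9/4)*g*h^2 + (-5)*g*h*e + (-77/2)*g*h + (1)*g*e + (141/4)*g + (5/16)*h^3 + (-3/2)*h^2*e + (-39/4)*h^2 + (1)*h*e^2 + (73/2)*h*e + (705/16)*h + (137/8) = 0)
    (H6 : (-18)*g^3*h + (6)*g^3 + (-61/4)*g^2*h^2 + (30)*g^2*h*e + (210)*g^2*h + (-6)*g^2*e + (-395/4)*g^2 + (-69/16)*g*h^3 + (16)*g*h^2*e + (115)*g*h^2 + (-13)*g*h*e^2 + (-1031/4)*g*h*e + (-18589/16)*g*h + (1)*g*e^2 + (201/4)*g*e + (8023/8)*g + (-13/32)*h^4 + (35/16)*h^3*e + (505/32)*h^3 + (-5/2)*h^2*e^2 + (-593/8)*h^2*e + (-9443/32)*h^2 + (1)*h*e^3 + (103/2)*h*e^2 + (17051/16)*h*e + (40115/32)*h + (3807/8) = 0)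
    (H7 : (96)*g^4*h + (-24)*g^4 + (215/2)*g^3*h^2 + (-204)*g^3*h*e + (-1249)*g^3*h + (36)*g^3*e + (791/2)*g^3 + (725/16)*g^2*h^3 + (-635/4)*g^2*h^2*e + (-16027/16)*g^2*h^2 + (136)*g^2*h*e^2 + (4135/2)*g^2*h*e + (129835/16)*g^2*h + (-14)*g^2*e^2 + (-1607/4)*g^2*e + (-58405/16)*g^2 + (545/64)*g*h^4 + (-655/16)*g*h^3*e + (-17323/64)*g*h^3 + (235/4)*g*h^2*e^2 + (16263/16)*g*h^2*e + (275385/64)*g*h^2 + (-29)*g*h*e^3 + (-3581/4)*g*h*e^2 + (-157757/16)*g*h*e + (-2167353/64)*g*h + (1)*g*e^3 + (68)*g*e^2 + (30317/16)*g*e + (897761/32)*g + (77/128)*h^5 + (-225/64)*h^4*e + (-49/2)*h^4 + (85/16)*h^3*e^2 + (8145/64)*h^3*e + (36955/64)*h^3 + (-15/4)*h^2*e^3 + (-1135/8)*h^2*e^2 + (-172587/64)*h^2*e + (-274319/32)*h^2 + (1)*h*e^4 + (277/4)*h*e^3 + (31677/16)*h*e^2 + (1947107/64)*h*e + (4488805/128)*h + (417529/32) = 0) :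
    h = -1 ∧ e = 2 * g - 1 ∧ (g = 0 ∨ g = 1) := by
  have k := cert g h e H4 H5 H6 H7
  have hh : h = -1 := by
    have : h + 1 = 0 := by simpa using k
    linear_combination this
  subst hh
  have he : e = 2 * g - 1 := by linear_combination -H4
  refine ⟨rfl, he, ?_⟩
  rw [he] at H5
  have h5 : g * (g - 1) = 0 := by linear_combination (1 / 2) * H5
  rcases mul_eq_zero.1 h5 with h | h
  · exact Or.inl h
  · exact Or.inr (by linear_combination h)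


theorem chain (g q e : ℂ) (t : ℕ → ℕ → ℂ)
    (h1 : t 1 0 = 1) (h11 : t 1 1 = 1) (h1k : ∀ k, t 1 (k + 2) = 0)
    (hz : ∀ m : ℕ, 1 ≤ m → t (m + 1) 0 = g * t m 1 +
      ((11 - g - g * q) / 4 * m + (4 - (11 - g - g * q) / 4 - g)) * t m 0)
    (hs : ∀ m k : ℕ, 1 ≤ m → t (m + 1) (k + 1) = g * t m (k + 2) +
      ((11 - g - g * q) / 4 * m + (4 - (11 - g - g * q) / 4 - g) + (k + 1) * (g + e)) * t m (k + 1) +
      (k + 1) * ((q - e) * m + e * k + 1) * t m k) :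
    t 4 0 = (-1/4)*g^2*q^2 + (1/2)*g^2*q + (3/4)*g^2 + (1)*g*q*e + (5/4)*g*q + (-3)*g*e + (-11/4)*g + (513/2) ∧
    t 5 0 = (5/16)*g^3*q^3 + (-9/16)*g^3*q^2 + (-17/16)*g^3*q + (-3/16)*g^3 + (-3/2)*g^2*q^2*e + (-39/4)*g^2*q^2 + (4)*g^2*q*e + (20)*g^2*q + (3/2)*g^2*e + (103/4)*g^2 + (1)*g*q*e^2 + (73/2)*g*q*e + (705/16)*g*q + (-3)*g*e^2 + (-217/2)*g*e + (-1551/16)*g + (25137/8) ∧
    t 6 0 = (-13/32)*g^4*q^4 + (9/16)*g^4*q^3 + (13/8)*g^4*q^2 + (15/16)*g^4*q + (9/32)*g^4 + (35/16)*g^3*q^3*e + (505/32)*g^3*q^3 + (-59/16)*g^3*q^2*e + (-865/32)*g^3*q^2 + (-111/16)*g^3*q*e + (-1725/32)*g^3*q + (-81/16)*g^3*e + (-483/32)*g^3 + (-5/2)*g^2*q^2*e^2 + (-593/8)*g^2*q^2*e + (-9443/32)*g^2*q^2 + (2)*g^2*q*e^2 + (187)*g^2*q*e + (2435/4)*g^2*q + (33/2)*g^2*e^2 + (801/8)*g^2*e + (23387/32)*g^2 + (1)*g*q*e^3 + (103/2)*g*q*e^2 + (17051/16)*g*q*e + (40115/32)*g*q + (-3)*g*e^3 + (-307/2)*g*e^2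 + (-50349/16)*g*e + (-88253/32)*g + (377055/8) ∧
    t 7 0 = (77/128)*g^5*q^5 + (-65/128)*g^5*q^4 + (-175/64)*g^5*q^3 + (-185/64)*g^5*q^2 + (-207/128)*g^5*q + (-45/128)*g^5 + (-225/64)*g^4*q^4*e + (-49/2)*g^4*q^4 + (5/4)*g^4*q^3*e + (1493/64)*g^4*q^3 + (635/32)*g^4*q^2*e + (7127/64)*g^4*q^2 + (183/8)*g^4*q*e + (6335/64)*g^4*q + (243/64)*g^4*e + (2013/64)*g^4 + (85/16)*g^3*q^3*e^2 + (8145/64)*g^3*q^3*e + (36955/64)*g^3*q^3 + (175/16)*g^3*q^2*e^2 + (-8253/64)*g^3*q^2*e + (-28605/32)*g^3*q^2 + (-1169/16)*g^3*q*e^2 + (-38077/64)*g^3*q*e + (-135185/64)*g^3*q + (-363/16)*g^3*e^2 + (-29103/64)*g^3*e + (-13007/16)*g^3 + (-15/4)*g^2*q^2*e^3 + (-1135/8)*g^2*q^2*e^2 + (-172587/64)*g^2*q^2*e + (-274319/32)*g^2*q^2 + (-13/2)*g^2*q*e^3 + (-44)*g^2*q*e^2 + (202247/32)*g^2*q*e + (1124475/64)*g^2*q + (213/4)*g^2*e^3 + (11159/8)*g^2*e^2 + (314089/64)*g^2*e + (1330697/64)*g^2 + (1)*g*q*e^4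 + (277/4)*g*q*e^3 + (31677/16)*g*q*e^2 + (1947107/64)*g*q*e + (4488805/128)*g*q + (-3)*g*e^4 + (-827/4)*g*e^3 + (-93943/16)*g*e^2 + (-5720053/64)*g*e + (-9875371/128)*g + (26770905/32) := by
  have x2_0 : t 2 0 = (4) := by
    rw [show t 2 0 = _ from hz 1 (by norm_num), h11, h1]
    push_cast
    ring
  have x2_1 : t 2 1 = (1)*q + (5) := by
    rw [show t 2 1 = _ from hs 1 0 (by norm_num), show t 1 (0 + 2) = _ from h1k 0, show t 1 (0 + 1) = _ from h11, h1]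
    push_cast
    ring
  have x2_2 : t 2 2 = (2)*q + (2) := by
    rw [show t 2 2 = _ from hs 1 1 (by norm_num), show t 1 (1 + 2) = _ from h1k 1, show t 1 (1 + 1) = _ from h1k 0, h11]
    push_cast
    ring
  have x2_3 : t 2 3 = 0 := by
    rw [show t 2 3 = _ from hs 1 2 (by norm_num), show t 1 (2 + 2) = _ from h1k 2, show t 1 (2 + 1) = _ from h1k 1, h1k 0]
    push_cast
    ring
  have x2_4 : t 2 4 = 0 := by
    rw [show t 2 4 = _ from hs 1 3 (by norm_num), show t 1 (3 + 2) = _ from h1k 3, show t 1 (3 + 1) = _ from h1k 2, h1k 1]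
    push_cast
    ring
  have x2_5 : t 2 5 = 0 := by
    rw [show t 2 5 = _ from hs 1 4 (by norm_num), show t 1 (4 + 2) = _ from h1k 4, show t 1 (4 + 1) = _ from h1k 3, h1k 2]
    push_cast
    ring
  have x3_0 : t 3 0 = (27) := by
    rw [show t 3 0 = _ from hz 2 (by norm_num), x2_1, x2_0]
    push_cast
    ring
  have x3_1 : t 3 1 = (-1/4)*g*q^2 + (1/2)*g*q + (3/4)*g + (1)*q*e + (59/4)*q + (-3)*e + (151/4) := by
    rw [show t 3 1 = _ from hs 2 0 (by norm_num), show t 2 (0 + 2) = _ from x2_2, show t 2 (0 + 1) = _ from x2_1, x2_0]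
    push_cast
    ring
  have x3_2 : t 3 2 = (-1/2)*g*q^2 + (1)*g*q + (3/2)*g + (4)*q^2 + (2)*q*e + (71/2)*q + (-6)*e + (47/2) := by
    rw [show t 3 2 = _ from hs 2 1 (by norm_num), show t 2 (1 + 2) = _ from x2_3, show t 2 (1 + 1) = _ from x2_2, x2_1]
    push_cast
    ring
  have x3_3 : t 3 3 = (12)*q^2 + (18)*q + (6) := by
    rw [show t 3 3 = _ from hs 2 2 (by norm_num), show t 2 (2 + 2) = _ from x2_4, show t 2 (2 + 1) = _ from x2_3, x2_2]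
    push_cast
    ring
  have x3_4 : t 3 4 = 0 := by
    rw [show t 3 4 = _ from hs 2 3 (by norm_num), show t 2 (3 + 2) = _ from x2_5, show t 2 (3 + 1) = _ from x2_4, x2_3]
    push_cast
    ring
  have x4_0 : t 4 0 = (-1/4)*g^2*q^2 + (1/2)*g^2*q + (3/4)*g^2 + (1)*g*q*e + (5/4)*g*q + (-3)*g*e + (-11/4)*g + (513/2) := by
    rw [show t 4 0 = _ from hz 3 (by norm_num), x3_1, x3_0]
    push_cast
    ring
  have x4_1 : t 4 1 = (1/8)*g^2*q^3 + (-5/8)*g^2*q^2 + (3/8)*g^2*q + (9/8)*g^2 + (-3/4)*g*q^2*e + (-23/4)*g*q^2 + (7/2)*g*q*e + (14)*g*q + (-15/4)*g*e + (47/4)*g + (1)*q*e^2 + (97/4)*q*e + (1769/8)*q + (-3)*e^2 + (-287/4)*e + (3085/8) := by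
    rw [show t 4 1 = _ from hs 3 0 (by norm_num), show t 3 (0 + 2) = _ from x3_2, show t 3 (0 + 1) = _ from x3_1, x3_0]
    push_cast
    ring
  have x4_2 : t 4 2 = (1/4)*g^2*q^3 + (-3/4)*g^2*q^2 + (-1/4)*g^2*q + (3/4)*g^2 + (-7/2)*g*q^3 + (-1)*g*q^2*e + (-6)*g*q^2 + (4)*g*q*e + (39)*g*q + (-3)*g*e + (67/2)*g + (14)*q^2*e + (253/2)*q^2 + (15)*q*e + (2373/4)*q + (-167)*e + (1195/4) := by
    rw [show t 4 2 = _ from hs 3 1 (by norm_num), show t 3 (1 + 2) = _ from x3_3, show t 3 (1 + 1) = _ from x3_2, x3_1]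
    push_cast
    ring
  have x4_3 : t 4 3 = (-21/2)*g*q^3 + (3/2)*g*q^2*e + (33/2)*g*q^2 + (-3)*g*q*e + (81/2)*g*q + (-9/2)*g*e + (27/2)*g + (36)*q^3 + (42)*q^2*e + (891/2)*q^2 + (-6)*q*e^2 + (-201/2)*q*e + (489)*q + (18)*e^2 + (-141/2)*e + (255/2) := by
    rw [show t 4 3 = _ from hs 3 2 (by norm_num), show t 3 (2 + 2) = _ from x3_4, show t 3 (2 + 1) = _ from x3_3, x3_2]
    push_cast
    ring
  have x5_0 : t 5 0 = (5/16)*g^3*q^3 + (-9/16)*g^3*q^2 + (-17/16)*g^3*q + (-3/16)*g^3 + (-3/2)*g^2*q^2*e + (-39/4)*g^2*q^2 + (4)*g^2*q*e + (20)*g^2*q + (3/2)*g^2*e + (103/4)*g^2 + (1)*g*q*e^2 + (73/2)*g*q*e + (705/16)*g*q + (-3)*g*e^2 + (-217/2)*g*e + (-1551/16)*g + (25137/8) := by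
    rw [show t 5 0 = _ from hz 4 (by norm_num), x4_1, x4_0]
    push_cast
    ring
  have x5_1 : t 5 1 = (-3/32)*g^3*q^4 + (5/8)*g^3*q^3 + (-9/16)*g^3*q^2 + (-11/8)*g^3*q + (-3/32)*g^3 + (11/16)*g^2*q^3*e + (43/32)*g^2*q^3 + (-43/16)*g^2*q^2*e + (-579/32)*g^2*q^2 + (41/16)*g^2*q*e + (889/32)*g^2*q + (-33/16)*g^2*e + (1255/32)*g^2 + (-3/2)*g*q^2*e^2 + (-121/8)*g*q^2*e + (-3353/32)*g*q^2 + (1)*g*q*e^2 + (183/2)*g*q*e + (4799/16)*g*q + (21/2)*g*e^2 + (-1115/8)*g*e + (4823/32)*g + (1)*q*e^3 + (73/2)*q*e^2 + (8291/16)*q*e + (119513/32)*q + (-3)*e^3 + (-217/2)*e^2 + (-24309/16)*e + (159373/32) := by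
    rw [show t 5 1 = _ from hs 4 0 (by norm_num), show t 4 (0 + 2) = _ from x4_2, show t 4 (0 + 1) = _ from x4_1, x4_0]
    push_cast
    ring
  have x5_2 : t 5 2 = (-3/16)*g^3*q^4 + (5/8)*g^3*q^3 + (-5/8)*g^3*q + (3/16)*g^3 + (29/8)*g^2*q^4 + (1/2)*g^2*q^3*e + (-137/16)*g^2*q^3 + (1/2)*g^2*q^2*e + (-347/16)*g^2*q^2 + (-5/2)*g^2*q*e + (509/16)*g^2*q + (-21/2)*g^2*e + (533/16)*g^2 + (-47/2)*g*q^3*e + (-591/4)*g*q^3 + (5/2)*g*q^2*e^2 + (71)*g*q^2*e + (947/16)*g*q^2 + (-19)*g*q*e^2 + (97/2)*g*q*e + (1013)*g*q + (69/2)*g*e^2 + (-160)*g*e + (10177/16)*g + (36)*q^2*e^2 + (1237/2)*q^2*e + (26549/8)*q^2 + (-6)*q*e^3 + (-275/2)*q*e^2 + (-482)*q*e + (172713/16)*q + (18)*e^3 + (181/2)*e^2 + (-7811/2)*e + (70895/16) := by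
    rw [show t 5 2 = _ from hs 4 1 (by norm_num), show t 4 (1 + 2) = _ from x4_3, show t 4 (1 + 1) = _ from x4_2, x4_1]
    push_cast
    ring
  have x6_0 : t 6 0 = (-13/32)*g^4*q^4 + (9/16)*g^4*q^3 + (13/8)*g^4*q^2 + (15/16)*g^4*q + (9/32)*g^4 + (35/16)*g^3*q^3*e + (505/32)*g^3*q^3 + (-59/16)*g^3*q^2*e + (-865/32)*g^3*q^2 + (-111/16)*g^3*q*e + (-1725/32)*g^3*q + (-81/16)*g^3*e + (-483/32)*g^3 + (-5/2)*g^2*q^2*e^2 + (-593/8)*g^2*q^2*e + (-9443/32)*g^2*q^2 + (2)*g^2*q*e^2 + (187)*g^2*q*e + (2435/4)*g^2*q + (33/2)*g^2*e^2 + (801/8)*g^2*e + (23387/32)*g^2 + (1)*g*q*e^3 + (103/2)*g*q*e^2 + (17051/16)*g*q*e + (40115/32)*g*q + (-3)*g*e^3 + (-307/2)*g*e^2 + (-50349/16)*g*e + (-88253/32)*g + (377055/8) := by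
    rw [show t 6 0 = _ from hz 5 (by norm_num), x5_1, x5_0]
    push_cast
    ring
  have x6_1 : t 6 1 = (3/32)*g^4*q^5 + (-23/32)*g^4*q^4 + (9/16)*g^4*q^3 + (31/16)*g^4*q^2 + (27/32)*g^4*q + (9/32)*g^4 + (-25/32)*g^3*q^4*e + (39/16)*g^3*q^4 + (25/16)*g^3*q^3*e + (241/16)*g^3*q^3 + (23/8)*g^3*q^2*e + (-731/16)*g^3*q^2 + (15/16)*g^3*q*e + (-925/16)*g^3*q + (-243/32)*g^3*e + (-15/2)*g^3 + (35/16)*g^2*q^3*e^2 + (-135/32)*g^2*q^3*e + (-1145/16)*g^2*q^3 + (125/16)*g^2*q^2*e^2 + (111/32)*g^2*q^2*e + (-2537/8)*g^2*q^2 + (-767/16)*g^2*q*e^2 + (2371/32)*g^2*q*e + (18045/16)*g^2*q + (231/16)*g^2*e^2 + (-4467/32)*g^2*e + (8795/8)*g^2 + (-5/2)*g*q^2*e^3 + (-265/8)*g*q^2*e^2 + (-1563/32)*g*q^2*e + (-28281/16)*g*q^2 + (-8)*g*q*e^3 + (-311/2)*g*q*e^2 + (5861/4)*g*q*e + (98205/16)*g*q + (93/2)*g*e^3 + (6053/8)*g*e^2 + (-126397/32)*g*e + (12915/8)*g + (1)*q*e^4 + (103/2)*q*e^3 + (17051/16)*q*e^2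 + (368243/32)*q*e + (2295435/32)*q + (-3)*e^4 + (-307/2)*e^3 + (-50349/16)*e^2 + (-1072637/32)*e + (2491143/32) := by
    rw [show t 6 1 = _ from hs 5 0 (by norm_num), show t 5 (0 + 2) = _ from x5_2, show t 5 (0 + 1) = _ from x5_1, x5_0]
    push_cast
    ring
  have x7_0 : t 7 0 = (77/128)*g^5*q^5 + (-65/128)*g^5*q^4 + (-175/64)*g^5*q^3 + (-185/64)*g^5*q^2 + (-207/128)*g^5*q + (-45/128)*g^5 + (-225/64)*g^4*q^4*e + (-49/2)*g^4*q^4 + (5/4)*g^4*q^3*e + (1493/64)*g^4*q^3 + (635/32)*g^4*q^2*e + (7127/64)*g^4*q^2 + (183/8)*g^4*q*e + (6335/64)*g^4*q + (243/64)*g^4*e + (2013/64)*g^4 + (85/16)*g^3*q^3*e^2 + (8145/64)*g^3*q^3*e + (36955/64)*g^3*q^3 + (175/16)*g^3*q^2*e^2 + (-8253/64)*g^3*q^2*e + (-28605/32)*g^3*q^2 + (-1169/16)*g^3*q*e^2 + (-38077/64)*g^3*q*e + (-135185/64)*g^3*q + (-363/16)*g^3*e^2 + (-29103/64)*g^3*e + (-13007/16)*g^3 + (-15/4)*g^2*q^2*e^3 + (-1135/8)*g^2*q^2*e^2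 + (-172587/64)*g^2*q^2*e + (-274319/32)*g^2*q^2 + (-13/2)*g^2*q*e^3 + (-44)*g^2*q*e^2 + (202247/32)*g^2*q*e + (1124475/64)*g^2*q + (213/4)*g^2*e^3 + (11159/8)*g^2*e^2 + (314089/64)*g^2*e + (1330697/64)*g^2 + (1)*g*q*e^4 + (277/4)*g*q*e^3 + (31677/16)*g*q*e^2 + (1947107/64)*g*q*e + (4488805/128)*g*q + (-3)*g*e^4 + (-827/4)*g*e^3 + (-93943/16)*g*e^2 + (-5720053/64)*g*e + (-9875371/128)*g + (26770905/32) := by
    rw [show t 7 0 = _ from hz 6 (by norm_num), x6_1, x6_0]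
    push_cast
    ring
  exact ⟨x4_0, x5_0, x6_0, x7_0⟩

theorem S_row (P Q : ℕ → ℕ → ℂ) (m : ℕ) (hm : 1 ≤ m) :
    ∑ n ∈ range (m + 1), S P Q m n = ∑ n ∈ Icc 1 m, S P Q m n := by
  obtain ⟨l, rfl⟩ : ∃ l, m = l + 1 := ⟨m - 1, by omega⟩
  have h0 : S P Q (l + 1) 0 = 0 := rfl
  rw [sum_range_succ', h0, add_zero, ← sum_image (g := fun n => n + 1)
    (fun x _ y _ h => by simpa using h)]
  apply sum_congr _ (fun _ _ => rfl)
  ext n
  simp only [mem_image, mem_range, mem_Icc]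
  constructor
  · rintro ⟨x, hx, rfl⟩
    omega
  · rintro ⟨h1, h2⟩
    exact ⟨n - 1, by omega, by omega⟩

/-- Linear polynomials with complex coefficients. -/
theorem linear_part (a b c d e f : ℂ)
    (h : ∀ m : ℕ, 1 ≤ m → m ≤ 7 →
      ∑ n ∈ Icc 1 m, S (fun m n => a * m + b * n + c) (fun m n => d * m + e * n + f) m n =
        (m : ℂ) ^ m) :
    a = 1 ∧ b = 0 ∧ c = 0 ∧ d = 1 ∧ e = 1 ∧ f = 0 := by
  have row : ∀ m : ℕ, 1 ≤ m → m ≤ 7 → T a b c d e f m 0 = (m : ℂ) ^ m := by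
    intro m h1 h7
    rw [← h m h1 h7]
    unfold T
    simp only [ff_zero, mul_one]
    exact S_row _ _ m h1
  -- row 1
  have r1 := row 1 (by norm_num) (by norm_num)
  rw [T_one, ff_zero] at r1
  have hf : f = 1 - e := by
    have : e + f = 1 := by simpa using r1
    linear_combination this
  have t11 : T a b c d e f 1 1 = 1 := by
    rw [T_one, ff_one_one, hf]; ring
  have t10 : T a b c d e f 1 0 = 1 := by
    rw [T_one, ff_zero, hf]; ring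
  have t1k : ∀ k, T a b c d e f 1 (k + 2) = 0 := by
    intro k
    rw [T_one, ff_one_ge, mul_zero]
  -- row 2
  have r2 := row 2 (by norm_num) (by norm_num)
  have z1 := T_zero (a := a) (b := b) (c := c) (d := d) (e := e) (f := f) 1 le_rfl
  rw [show (1 : ℕ) + 1 = 2 from rfl, t11, t10] at z1
  have hc : c = 3 - a - b - d - e := by
    rw [r2] at z1
    push_cast at z1
    rw [hf] at z1
    linear_combination -z1
  -- row 3
  have s1 := T_succ (a := a) (b := b) (c := c) (d := d) (e := e) (f := f) 1 0 le_rfl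
  rw [show (1 : ℕ) + 1 = 2 from rfl, show (0 : ℕ) + 1 = 1 from rfl, t1k 0, t11, t10] at s1
  have r3 := row 3 (by norm_num) (by norm_num)
  have z2 := T_zero (a := a) (b := b) (c := c) (d := d) (e := e) (f := f) 2 (by norm_num)
  rw [show (2 : ℕ) + 1 = 3 from rfl, r3, r2, s1] at z2
  have hs : a + d = (11 - (b + e) - (b + e) * (d + e)) / 4 := by
    rw [hf, hc] at z2
    push_cast at z2
    linear_combination (-1 / 4) * z2
  -- the other rows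
  have hz : ∀ m : ℕ, 1 ≤ m → T a b c d e f (m + 1) 0 = (b + e) * T a b c d e f m 1 +
      ((11 - (b + e) - (b + e) * (d + e)) / 4 * m +
        (4 - (11 - (b + e) - (b + e) * (d + e)) / 4 - (b + e))) * T a b c d e f m 0 := by
    intro m hm
    rw [T_zero m hm, ← hs, hf, hc]
    ring
  have hs' : ∀ m k : ℕ, 1 ≤ m → T a b c d e f (m + 1) (k + 1) =
      (b + e) * T a b c d e f m (k + 2) +
      ((11 - (b + e) - (b + e) * (d + e)) / 4 * m +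
        (4 - (11 - (b + e) - (b + e) * (d + e)) / 4 - (b + e)) +
          (k + 1) * ((b + e) + e)) * T a b c d e f m (k + 1) +
      (k + 1) * (((d + e) - e) * m + e * k + 1) * T a b c d e f m k := by
    intro m k hm
    rw [T_succ m k hm, ← hs, hf, hc]
    ring
  obtain ⟨h4, h5, h6, h7⟩ := chain (b + e) (d + e) e (T a b c d e f) t10 t11 t1k hz hs'
  have r4 := row 4 (by norm_num) (by norm_num)
  have r5 := row 5 (by norm_num) (by norm_num)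
  have r6 := row 6 (by norm_num) (by norm_num)
  have r7 := row 7 (by norm_num) (by norm_num)
  rw [h4] at r4
  rw [h5] at r5
  rw [h6] at r6
  rw [h7] at r7
  push_cast at r4 r5 r6 r7
  clear h4 h5 h6 h7 hs' hz row h z1 z2 s1 r1 r2 r3 t1k t11 t10
  obtain ⟨hh, he, hg⟩ := fin (b + e) ((b + e) * (d + e - 3)) e (by linear_combination r4)
    (by linear_combination r5) (by linear_combination r6) (by linear_combination r7)
  have hg1 : b + e = 1 := by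
    rcases hg with hg | hg
    · rw [hg] at hh
      norm_num at hh
    · exact hg
  have hq : d + e = 2 := by
    rw [hg1] at hh
    linear_combination hh
  have he1 : e = 1 := by
    rw [hg1] at he
    linear_combination he
  have hb : b = 0 := by linear_combination hg1 - he1
  have hd : d = 1 := by linear_combination hq - he1
  have ha : a = 1 := by
    rw [hg1, hq] at hs
    linear_combination hs - hd
  refine ⟨ha, hb, ?_, hd, he1, ?_⟩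
  · rw [hc, ha, hb, hd, he1]; norm_num
  · rw [hf, he1]; norm_num

/-! ## Nonnegative coefficients, arbitrary degree -/

theorem S_nonneg (P Q : ℕ → ℕ → ℝ) (hP : ∀ m n, 0 ≤ P m n) (hQ : ∀ m n, 0 ≤ Q m n) :
    ∀ m n : ℕ, 0 ≤ S P Q m n
  | 0, 0 => by simp [S]
  | 0, _ + 1 => by simp [S]
  | _ + 1, 0 => by simp [S]
  | m + 1, n + 1 => by
    show 0 ≤ P m (n + 1) * S P Q m (n + 1) + Q m (n + 1) * S P Q m n
    have h1 := mul_nonneg (hP m (n + 1)) (S_nonneg P Q hP hQ m (n + 1))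
    have h2 := mul_nonneg (hQ m (n + 1)) (S_nonneg P Q hP hQ m n)
    linarith

theorem S_cast (P Q : ℕ → ℕ → ℝ) : ∀ m n : ℕ, ((S P Q m n : ℝ) : ℂ) =
    S (fun m n => ((P m n : ℝ) : ℂ)) (fun m n => ((Q m n : ℝ) : ℂ)) m n
  | 0, 0 => by simp [S]
  | 0, _ + 1 => by simp [S]
  | _ + 1, 0 => by simp [S]
  | m + 1, n + 1 => by
    show ((P m (n + 1) * S P Q m (n + 1) + Q m (n + 1) * S P Q m n : ℝ) : ℂ) =
      ((P m (n + 1) : ℝ) : ℂ) * S (fun m n => ((P m n : ℝ) : ℂ)) (fun m n => ((Q m n : ℝ) : ℂ)) m (n + 1) +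
      ((Q m (n + 1) : ℝ) : ℂ) * S (fun m n => ((P m n : ℝ) : ℂ)) (fun m n => ((Q m n : ℝ) : ℂ)) m n
    rw [← S_cast P Q m (n + 1), ← S_cast P Q m n]
    push_cast
    ring

theorem diag_one (P Q : ℕ → ℕ → ℝ) (hP : ∀ m n, 0 ≤ P m n) (hQ : ∀ m n, 0 ≤ Q m n)
    (h1 : ∀ i, 1 ≤ Q i (i + 1)) : ∀ k : ℕ, 1 ≤ S P Q k k
  | 0 => by simp [S]
  | k + 1 => by
    show 1 ≤ P k (k + 1) * S P Q k (k + 1) + Q k (k + 1) * S P Q k k
    have h2 := mul_nonneg (hP k (k + 1)) (S_nonneg P Q hP hQ k (k + 1))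
    have h3 := diag_one P Q hP hQ h1 k
    have h4 := h1 k
    nlinarith

theorem run_P (P Q : ℕ → ℕ → ℝ) (hP : ∀ m n, 0 ≤ P m n) (hQ : ∀ m n, 0 ≤ Q m n)
    (h1 : ∀ i, 1 ≤ Q i (i + 1)) (k : ℕ) (c : ℝ) (hc : 0 ≤ c)
    (hk : ∀ m, k + 1 ≤ m → c ≤ P m (k + 1)) :
    ∀ l : ℕ, c ^ l ≤ S P Q (k + 1 + l) (k + 1)
  | 0 => by
    rw [pow_zero]
    exact diag_one P Q hP hQ h1 (k + 1)
  | l + 1 => by
    show c ^ (l + 1) ≤ P (k + 1 + l) (k + 1) * S P Q (k + 1 + l) (k + 1) +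
      Q (k + 1 + l) (k + 1) * S P Q (k + 1 + l) k
    have h2 := mul_nonneg (hQ (k + 1 + l) (k + 1)) (S_nonneg P Q hP hQ (k + 1 + l) k)
    have h3 := run_P P Q hP hQ h1 k c hc hk l
    have h4 := hk (k + 1 + l) (by omega)
    have h5 : c * c ^ l ≤ P (k + 1 + l) (k + 1) * S P Q (k + 1 + l) (k + 1) :=
      mul_le_mul h4 h3 (pow_nonneg hc l) (hP _ _)
    rw [pow_succ]
    nlinarith

theorem run_Q (P Q : ℕ → ℕ → ℝ) (hP : ∀ m n, 0 ≤ P m n) (hQ : ∀ m n, 0 ≤ Q m n)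
    (h1 : ∀ i, 1 ≤ Q i (i + 1)) (k : ℕ) (c : ℝ) (hc : 0 ≤ c)
    (hk : ∀ m, k + 1 ≤ m → c ≤ Q m (m + 1)) :
    ∀ l : ℕ, c ^ l ≤ S P Q (k + 1 + l) (k + 1 + l)
  | 0 => by
    rw [pow_zero]
    exact diag_one P Q hP hQ h1 (k + 1)
  | l + 1 => by
    show c ^ (l + 1) ≤ P (k + 1 + l) (k + 1 + l + 1) * S P Q (k + 1 + l) (k + 1 + l + 1) +
      Q (k + 1 + l) (k + 1 + l + 1) * S P Q (k + 1 + l) (k + 1 + l)
    have h2 := mul_nonneg (hP (k + 1 + l) (k + 1 + l + 1))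
      (S_nonneg P Q hP hQ (k + 1 + l) (k + 1 + l + 1))
    have h3 := run_Q P Q hP hQ h1 k c hc hk l
    have h4 := hk (k + 1 + l) (by omega)
    have h5 : c * c ^ l ≤ Q (k + 1 + l) (k + 1 + l + 1) * S P Q (k + 1 + l) (k + 1 + l) :=
      mul_le_mul h4 h3 (pow_nonneg hc l) (hQ _ _)
    rw [pow_succ]
    nlinarith

theorem no_growth (c : ℝ) (hc : 0 < c)
    (h : ∀ k : ℕ, (c * ((k : ℝ) + 1) ^ 2) ^ (3 * (k + 1)) ≤
      (4 * ((k : ℝ) + 1)) ^ (4 * (k + 1))) : False := by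
  obtain ⟨k, hk⟩ := exists_nat_gt (256 / c ^ 3)
  have h1 := h k
  set x : ℝ := (k : ℝ) + 1 with hx
  have hx1 : 1 ≤ x := by
    have : (0 : ℝ) ≤ k := Nat.cast_nonneg k
    linarith
  rw [pow_mul, pow_mul] at h1
  have h2 : (c * x ^ 2) ^ 3 ≤ (4 * x) ^ 4 :=
    le_of_pow_le_pow_left₀ (by omega) (by positivity) h1
  have hc3 : 0 < c ^ 3 := by positivity
  rw [div_lt_iff₀ hc3] at hk
  have h3 : x ^ 4 * (c ^ 3 * x ^ 2) ≤ x ^ 4 * 256 := by nlinarith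
  have h4 : c ^ 3 * x ^ 2 ≤ 256 := le_of_mul_le_mul_left h3 (by positivity)
  have h5 : x ≤ x ^ 2 := by nlinarith
  have h6 : c ^ 3 * x ≤ c ^ 3 * x ^ 2 := mul_le_mul_of_nonneg_left h5 hc3.le
  have h7 : (k : ℝ) * c ^ 3 ≤ c ^ 3 * x := by rw [hx]; nlinarith
  linarith

open MvPolynomial in
/-- The value of a polynomial in two variables at a pair of natural numbers. -/
noncomputable def ev (P : MvPolynomial (Fin 2) ℝ) (m n : ℕ) : ℝ :=
  MvPolynomial.eval ![(m : ℝ), (n : ℝ)] P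

theorem ev_eq (P : MvPolynomial (Fin 2) ℝ) (m n : ℕ) :
    ev P m n = ∑ s ∈ P.support, P.coeff s * ((m : ℝ) ^ s 0 * (n : ℝ) ^ s 1) := by
  unfold ev
  rw [MvPolynomial.eval_eq']
  apply sum_congr rfl
  intro s _
  rw [Fin.prod_univ_two]
  simp

theorem ev_nonneg (P : MvPolynomial (Fin 2) ℝ) (hP : ∀ s, 0 ≤ P.coeff s) (m n : ℕ) :
    0 ≤ ev P m n := by
  rw [ev_eq]
  exact sum_nonneg fun s _ => mul_nonneg (hP s) (by positivity)

theorem ev_mono (P : MvPolynomial (Fin 2) ℝ) (hP : ∀ s, 0 ≤ P.coeff s) {m n m' n' : ℕ}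
    (h1 : m ≤ m') (h2 : n ≤ n') : ev P m n ≤ ev P m' n' := by
  rw [ev_eq, ev_eq]
  apply sum_le_sum
  intro s _
  apply mul_le_mul_of_nonneg_left _ (hP s)
  have h1' : (m : ℝ) ≤ m' := by exact_mod_cast h1
  have h2' : (n : ℝ) ≤ n' := by exact_mod_cast h2
  exact mul_le_mul (pow_le_pow_left₀ (by positivity) h1' _)
    (pow_le_pow_left₀ (by positivity) h2' _) (by positivity) (by positivity)

theorem ev_ge (P : MvPolynomial (Fin 2) ℝ) (hP : ∀ s, 0 ≤ P.coeff s) (s : Fin 2 →₀ ℕ)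
    (hs : 2 ≤ s 0 + s 1) (k m n : ℕ) (h1 : k + 1 ≤ m) (h2 : k + 1 ≤ n) :
    P.coeff s * ((k : ℝ) + 1) ^ 2 ≤ ev P m n := by
  refine le_trans ?_ (ev_mono P hP h1 h2)
  by_cases h : s ∈ P.support
  · rw [ev_eq]
    refine le_trans ?_ (single_le_sum (f := fun s => P.coeff s *
      (((k + 1 : ℕ) : ℝ) ^ s 0 * ((k + 1 : ℕ) : ℝ) ^ s 1))
      (fun t _ => mul_nonneg (hP t) (by positivity)) h)
    apply mul_le_mul_of_nonneg_left _ (hP s)
    rw [← pow_add]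
    push_cast
    exact pow_le_pow_right₀ (by
      have : (0 : ℝ) ≤ k := Nat.cast_nonneg k
      linarith) hs
  · rw [MvPolynomial.notMem_support_iff.1 h, zero_mul]
    exact ev_nonneg P hP _ _

theorem linear_of_coeff (P : MvPolynomial (Fin 2) ℝ)
    (h : ∀ s : Fin 2 →₀ ℕ, 2 ≤ s 0 + s 1 → P.coeff s = 0) (x : Fin 2 → ℝ) :
    MvPolynomial.eval x P = P.coeff (Finsupp.single 0 1) * x 0 +
      P.coeff (Finsupp.single 1 1) * x 1 + P.coeff 0 := by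
  classical
  have hsub : P.support ⊆ {0, Finsupp.single 0 1, Finsupp.single 1 1} := by
    intro s hs
    have h1 : ¬ 2 ≤ s 0 + s 1 := fun h2 => (MvPolynomial.mem_support_iff.1 hs) (h s h2)
    simp only [mem_insert, mem_singleton]
    have h3 : (s 0 = 0 ∧ s 1 = 0) ∨ (s 0 = 1 ∧ s 1 = 0) ∨ (s 0 = 0 ∧ s 1 = 1) := by omega
    rcases h3 with ⟨a, b⟩ | ⟨a, b⟩ | ⟨a, b⟩
    · left
      ext i
      fin_cases i <;> simp [a, b]
    · right; left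
      ext i
      fin_cases i <;> simp [a, b]
    · right; right
      ext i
      fin_cases i <;> simp [a, b]
  rw [MvPolynomial.eval_eq', sum_subset hsub (fun s _ hs => by
    rw [MvPolynomial.notMem_support_iff.1 hs, zero_mul])]
  have n1 : (0 : Fin 2 →₀ ℕ) ≠ Finsupp.single 0 1 := by
    intro h
    have := DFunLike.congr_fun h 0
    simp at this
  have n2 : (0 : Fin 2 →₀ ℕ) ≠ Finsupp.single 1 1 := by
    intro h
    have := DFunLike.congr_fun h 1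
    simp at this
  have n3 : (Finsupp.single 0 1 : Fin 2 →₀ ℕ) ≠ Finsupp.single 1 1 := by
    intro h
    have := DFunLike.congr_fun h 1
    simp at this
  rw [sum_insert (by simp [n1, n2]), sum_insert (by simp [n3]), sum_singleton]
  simp [Fin.prod_univ_two]
  ring

/-- Polynomials of any degree with nonnegative real coefficients. -/
theorem nonneg_part (P Q : MvPolynomial (Fin 2) ℝ) (hP : ∀ s, 0 ≤ P.coeff s)
    (hQ : ∀ s, 0 ≤ Q.coeff s)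
    (h : ∀ m : ℕ, 1 ≤ m → ∑ n ∈ Icc 1 m, S (ev P) (ev Q) m n = (m : ℝ) ^ m) :
    P = MvPolynomial.X 0 ∧ Q = MvPolynomial.X 0 + MvPolynomial.X 1 := by
  have hP' := ev_nonneg P hP
  have hQ' := ev_nonneg Q hQ
  have h11 : ev Q 0 1 = 1 := by
    have h2 := h 1 le_rfl
    rw [Icc_self, sum_singleton] at h2
    have h3 : S (ev P) (ev Q) 1 1 = ev P 0 1 * 0 + ev Q 0 1 * 1 := rfl
    rw [h3] at h2
    simpa using h2
  have h1 : ∀ i, 1 ≤ ev Q i (i + 1) := by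
    intro i
    rw [← h11]
    exact ev_mono Q hQ (Nat.zero_le i) (by omega)
  have up : ∀ m n : ℕ, 1 ≤ n → n ≤ m → S (ev P) (ev Q) m n ≤ (m : ℝ) ^ m := by
    intro m n hn hm
    rw [← h m (by omega)]
    exact single_le_sum (f := fun n => S (ev P) (ev Q) m n)
      (fun t _ => S_nonneg _ _ hP' hQ' m t) (mem_Icc.2 ⟨hn, hm⟩)
  have cP : ∀ s : Fin 2 →₀ ℕ, 2 ≤ s 0 + s 1 → P.coeff s = 0 := by
    intro s hs
    by_contra hne
    have hpos : 0 < P.coeff s := lt_of_le_of_ne (hP s) (Ne.symm hne)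
    apply no_growth (P.coeff s) hpos
    intro k
    have h2 := run_P (ev P) (ev Q) hP' hQ' h1 k (P.coeff s * ((k : ℝ) + 1) ^ 2) (by positivity)
      (fun m hm => ev_ge P hP s hs k m (k + 1) hm le_rfl) (3 * (k + 1))
    have h3 := up (k + 1 + 3 * (k + 1)) (k + 1) (by omega) (by omega)
    have h4 : (((k + 1 + 3 * (k + 1) : ℕ) : ℝ)) = 4 * ((k : ℝ) + 1) := by
      push_cast
      ring
    rw [h4, show k + 1 + 3 * (k + 1) = 4 * (k + 1) by ring] at h3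
    rw [show k + 1 + 3 * (k + 1) = 4 * (k + 1) by ring] at h2
    exact h2.trans h3
  have cQ : ∀ s : Fin 2 →₀ ℕ, 2 ≤ s 0 + s 1 → Q.coeff s = 0 := by
    intro s hs
    by_contra hne
    have hpos : 0 < Q.coeff s := lt_of_le_of_ne (hQ s) (Ne.symm hne)
    apply no_growth (Q.coeff s) hpos
    intro k
    have h2 := run_Q (ev P) (ev Q) hP' hQ' h1 k (Q.coeff s * ((k : ℝ) + 1) ^ 2) (by positivity)
      (fun m hm => ev_ge Q hQ s hs k m (m + 1) hm (by omega)) (3 * (k + 1))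
    have h3 := up (k + 1 + 3 * (k + 1)) (k + 1 + 3 * (k + 1)) (by omega) le_rfl
    have h4 : (((k + 1 + 3 * (k + 1) : ℕ) : ℝ)) = 4 * ((k : ℝ) + 1) := by
      push_cast
      ring
    rw [h4, show k + 1 + 3 * (k + 1) = 4 * (k + 1) by ring] at h3
    rw [show k + 1 + 3 * (k + 1) = 4 * (k + 1) by ring] at h2
    exact h2.trans h3
  have fP : (fun m n : ℕ => ((ev P m n : ℝ) : ℂ)) = fun m n : ℕ =>
      ((P.coeff (Finsupp.single 0 1) : ℝ) : ℂ) * m + ((P.coeff (Finsupp.single 1 1) : ℝ) : ℂ) * n +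
        ((P.coeff 0 : ℝ) : ℂ) := by
    funext m n
    unfold ev
    rw [linear_of_coeff P cP]
    simp
  have fQ : (fun m n : ℕ => ((ev Q m n : ℝ) : ℂ)) = fun m n : ℕ =>
      ((Q.coeff (Finsupp.single 0 1) : ℝ) : ℂ) * m + ((Q.coeff (Finsupp.single 1 1) : ℝ) : ℂ) * n +
        ((Q.coeff 0 : ℝ) : ℂ) := by
    funext m n
    unfold ev
    rw [linear_of_coeff Q cQ]
    simp
  obtain ⟨ha, hb, hc, hd, he, hf⟩ := linear_part
    ((P.coeff (Finsupp.single 0 1) : ℝ) : ℂ) ((P.coeff (Finsupp.single 1 1) : ℝ) : ℂ)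
    ((P.coeff 0 : ℝ) : ℂ) ((Q.coeff (Finsupp.single 0 1) : ℝ) : ℂ)
    ((Q.coeff (Finsupp.single 1 1) : ℝ) : ℂ) ((Q.coeff 0 : ℝ) : ℂ) (by
      intro m hm _
      have h2 := congrArg (fun x : ℝ => (x : ℂ)) (h m hm)
      simp only [Complex.ofReal_sum, Complex.ofReal_pow, Complex.ofReal_natCast] at h2
      rw [← h2]
      apply sum_congr rfl
      intro n _
      rw [S_cast, fP, fQ])
  have ha' : P.coeff (Finsupp.single 0 1) = 1 := by exact_mod_cast ha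
  have hb' : P.coeff (Finsupp.single 1 1) = 0 := by exact_mod_cast hb
  have hc' : P.coeff 0 = 0 := by exact_mod_cast hc
  have hd' : Q.coeff (Finsupp.single 0 1) = 1 := by exact_mod_cast hd
  have he' : Q.coeff (Finsupp.single 1 1) = 1 := by exact_mod_cast he
  have hf' : Q.coeff 0 = 0 := by exact_mod_cast hf
  constructor
  · apply MvPolynomial.funext
    intro x
    rw [linear_of_coeff P cP x, ha', hb', hc']
    simp
  · apply MvPolynomial.funext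
    intro x
    rw [linear_of_coeff Q cQ x, hd', he', hf']
    simp

/-- **Linear pairs, and pairs with nonnegative coefficients.**
(1) Let `P(m,n) = a m + b n + c` and `Q(m,n) = d m + e n + f` with complex coefficients.  If the
row sums `∑_{n=1}^m S(m,n)` are equal to `m ^ m` for `m = 1, …, 7` (in particular, if `(P, Q)` is
admissible), then `P(m,n) = m` and `Q(m,n) = m + n`.
(2) Let `P` and `Q` be polynomials in two variables, of any degree, with nonnegative real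
coefficients.  If `(P, Q)` is admissible, that is, if `∑_{n=1}^m S(m,n) = m ^ m` for all `m ≥ 1`,
then `P(m,n) = m` and `Q(m,n) = m + n`. -/
theorem result :
    (∀ a b c d e f : ℂ,
      (∀ m : ℕ, 1 ≤ m → m ≤ 7 →
        ∑ n ∈ Icc 1 m, S (fun m n => a * m + b * n + c) (fun m n => d * m + e * n + f) m n =
          (m : ℂ) ^ m) →
      a = 1 ∧ b = 0 ∧ c = 0 ∧ d = 1 ∧ e = 1 ∧ f = 0) ∧
    (∀ P Q : MvPolynomial (Fin 2) ℝ, (∀ s, 0 ≤ P.coeff s) → (∀ s, 0 ≤ Q.coeff s) →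
      (∀ m : ℕ, 1 ≤ m →
        ∑ n ∈ Icc 1 m, S (fun m n => MvPolynomial.eval ![(m : ℝ), (n : ℝ)] P)
          (fun m n => MvPolynomial.eval ![(m : ℝ), (n : ℝ)] Q) m n = (m : ℝ) ^ m) →
      P = MvPolynomial.X 0 ∧ Q = MvPolynomial.X 0 + MvPolynomial.X 1) :=
  ⟨linear_part, nonneg_part⟩

end Pool.Agent.Results.MP_97c21f_co.LinearPairs
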